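import Pool.Agent.helper7.UL.Spec

/-!
# Project ul, row CHJ (the meaning of the check)
-/

set_option autoImplicit false

namespace Pool.Agent.UL

open Finset

lemma CHJ_lt (R c : ℕ) (h : marg R c = true) : c < 2 ^ (R + 4) := by
  unfold marg at h
  simp only [Bool.and_eq_true, Bool.or_eq_true, beq_iff_eq] at h
  have h2 : c >>> (R + 1) ≤ 7 := by
    rcases h.2 with h3 | h3 <;> omega
  rw [Nat.shiftRight_eq_div_pow] at h2
  have h4 : c < 8 * 2 ^ (R + 1) := by
    have hp : 0 < 2 ^ (R + 1) := by positivity
    have := Nat.lt_mul_of_div_lt (Nat.lt_of_le_of_lt h2 (show 7 < 8 by norm_num)) hp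
    rw [mul_comm] at this
    linarith
  have h5 : 2 ^ (R + 4) = 8 * 2 ^ (R + 1) := by ring
  omega

lemma CHJ_chk (R o X A J : ℕ) (head rec : List (List Wd)) (h : chkJ R o X A J head rec = true) :
    ((req R A J).1 ^^^ ((headCov R o A J 0 head rec ((0, 0), 0)).1.2 &&& (req R A J).1) = 0 ∧
      ¬ ((req R A J).2 = true ∧ (headCov R o A J 0 head rec ((0, 0), 0)).2 < 2)) ∨
    (A ≤ X ∧ (J = 0 ∨ 3 ≤ J ∨ (J = 2 ∧ (3 ≤ A ∨ (A = 2 ∧
      ((req R A J).1 ^^^ ((headCov R o A J 0 head rec ((0, 0), 0)).1.2 &&& (req R A J).1)) >>> (2 * R) <<< (2 * R) =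
      (req R A J).1 ^^^ ((headCov R o A J 0 head rec ((0, 0), 0)).1.2 &&& (req R A J).1))))) ∧
      (hitAll R A J 0 head rec (0, false)).1 &&&
        ((req R A J).1 ^^^ ((headCov R o A J 0 head rec ((0, 0), 0)).1.2 &&& (req R A J).1)) = 0 ∧
      (¬ ((req R A J).2 = true ∧ (headCov R o A J 0 head rec ((0, 0), 0)).2 < 2) ∨
        (hitAll R A J 0 head rec (0, false)).2 = false)) := by
  unfold chkJ at h
  dsimp only at h
  split_ifs at h with c1 c2
  · left
    simp only [Bool.and_eq_true, beq_iff_eq, Bool.not_eq_true', Bool.and_eq_false_iff, decide_eq_false_iff_not] at c1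
    refine ⟨c1.1, ?_⟩
    rintro ⟨h1, h2⟩
    rcases c1.2 with h3 | h3
    · rw [h1] at h3; exact absurd h3 (by simp)
    · exact h3 h2
  · right
    simp only [Bool.and_eq_true, Bool.or_eq_true, beq_iff_eq, decide_eq_true_eq, Bool.not_eq_true',
      Bool.and_eq_false_iff, decide_eq_false_iff_not] at c2 h
    refine ⟨c2.1, ?_, h.1, ?_⟩
    · rcases c2.2 with (h3 | h3) | h3
      · exact Or.inl h3
      · exact Or.inr (Or.inl h3)
      · exact Or.inr (Or.inr h3)
    · rcases h.2 with h3 | h3
      · left
        rintro ⟨h1, h2⟩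
        rcases h3 with h4 | h4
        · rw [h1] at h4; exact absurd h4 (by simp)
        · exact h4 h2
      · exact Or.inr h3

theorem CHJ (h1 : HCV_stmt) (h2 : TWO_stmt) (h3 : HIT_stmt) : CHJ_stmt := by
  intro R o W X A J hT hW hJ hchk
  have hR := hT.hR
  have hcell : ∀ j < o, ∀ A, cell R o j A < 2 ^ (R + 4) := fun j hj A => CHJ_lt R _ (hT.hmarg j hj A)
  have hK := CHJ_chk R o X A J _ _ hchk
  obtain ⟨t1, t2⟩ := h2 R o W X A J hT hW hJ
  constructor
  · intro β hβ hq
    by_cases hc : (headCov R o A J 0 (headW R o X) (recW R o X A) ((0, 0), 0)).1.2.testBit β = true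
    · left
      apply t1 β hβ
      have := (h1 R o X A J β hR hcell hJ hβ).1
      unfold cnt at this
      rw [if_pos hc] at this
      exact this
    · right
      rw [Bool.not_eq_true] at hc
      set rest := (req R A J).1 ^^^ ((headCov R o A J 0 (headW R o X) (recW R o X A) ((0, 0), 0)).1.2 &&&
        (req R A J).1) with hrest
      have hr : rest.testBit β = true := by
        rw [hrest, Nat.testBit_xor, Nat.testBit_and, hc, hq]
        rfl
      rcases hK with ⟨k1, _⟩ | ⟨k1, k2, k3, _⟩
      · rw [k1] at hr
        simp at hr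
      · constructor
        · apply (h3 R o W X A J hT hW hJ k1).1 β hβ
          by_contra hh
          rw [Bool.not_eq_false] at hh
          have e : ((hitAll R A J 0 (headW R o X) (recW R o X A) (0, false)).1 &&& rest).testBit β = true := by
            rw [Nat.testBit_and, hh, hr]; rfl
          rw [k3] at e
          simp at e
        · rcases k2 with k2 | k2 | ⟨k2, k2'⟩
          · exact Or.inl k2
          · exact Or.inr (Or.inl k2)
          · refine Or.inr (Or.inr ⟨k2, ?_⟩)
            rcases k2' with hA | ⟨hA, hs⟩
            · have : 3 * (W : ℤ) ≤ A * W := by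
                have : (3 : ℤ) ≤ A := by exact_mod_cast hA
                exact mul_le_mul_of_nonneg_right this (by positivity)
              have : (0 : ℤ) ≤ β := by positivity
              have : 5 * (R : ℤ) + 20 ≤ W := by exact_mod_cast hW
              have : (0 : ℤ) ≤ R := by positivity
              linarith
            · have hb : 2 * R ≤ β := by
                by_contra hlt
                push Not at hlt
                rw [← hs, Nat.testBit_shiftLeft] at hr
                simp only [Bool.and_eq_true, decide_eq_true_eq] at hr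
                omega
              have : 2 * (R : ℤ) ≤ β := by exact_mod_cast hb
              rw [hA]
              push_cast
              linarith
  · intro hq x hx1 hx2
    by_cases hc : 2 ≤ (headCov R o A J 0 (headW R o X) (recW R o X A) ((0, 0), 0)).2
    · left
      apply t2 _ x hx1 hx2
      have := (h1 R o X A J 0 hR hcell hJ (by omega)).2
      exact le_trans hc this
    · right
      rcases hK with ⟨_, k1⟩ | ⟨k1, k2, _, k3⟩
      · exact absurd ⟨hq, by omega⟩ k1
      · constructor
        · apply (h3 R o W X A J hT hW hJ k1).2 _ x hx1 hx2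
          rcases k3 with k4 | k4
          · exact absurd ⟨hq, by omega⟩ k4
          · exact k4
        · rcases k2 with k2 | k2 | ⟨k2, k2'⟩
          · exact Or.inl k2
          · exact Or.inr (Or.inl k2)
          · refine Or.inr (Or.inr ⟨k2, ?_⟩)
            have hA : 2 ≤ A := by
              rcases k2' with hA | ⟨hA, _⟩ <;> omega
            have : 2 * (W : ℤ) ≤ A * W := by
              have : (2 : ℤ) ≤ A := by exact_mod_cast hA
              exact mul_le_mul_of_nonneg_right this (by positivity)
            linarith

end Pool.Agent.UL
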