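import Pool.Agent.helper7.UL.SpecN

/-!
# Project ul, row NTH (NIP of the complete theory)
-/

set_option autoImplicit false

namespace Pool.Agent.UL

open FirstOrder Language

/-- substitution of the variables -/
def NTH_g {m n k : ℕ} (p : Fin k × Set (Fin k)) :
    Fin m ⊕ Fin n → Empty ⊕ ((Fin k × Fin m) ⊕ (Set (Fin k) × Fin n)) :=
  Sum.elim (fun x => Sum.inr (Sum.inl (p.1, x))) (fun y => Sum.inr (Sum.inr (p.2, y)))

open Classical in
/-- one condition -/
noncomputable def NTH_c (L : FirstOrder.Language.{0, 0}) {m n : ℕ} (φ : L.Formula (Fin m ⊕ Fin n)) (k : ℕ)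
    (p : Fin k × Set (Fin k)) : L.Formula (Empty ⊕ ((Fin k × Fin m) ⊕ (Set (Fin k) × Fin n))) :=
  if p.1 ∈ p.2 then φ.relabel (NTH_g p) else ∼(φ.relabel (NTH_g p))

/-- the sentence -/
noncomputable def NTH_s (L : FirstOrder.Language.{0, 0}) {m n : ℕ} (φ : L.Formula (Fin m ⊕ Fin n)) (k : ℕ) :
    L.Sentence :=
  Formula.iExs ((Fin k × Fin m) ⊕ (Set (Fin k) × Fin n)) (Formula.iInf (NTH_c L φ k))

lemma NTH_real (L : FirstOrder.Language.{0, 0}) (P : Type) [L.Structure P] {m n : ℕ}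
    (φ : L.Formula (Fin m ⊕ Fin n)) (k : ℕ) : P ⊨ NTH_s L φ k ↔ Shat L P φ k := by
  have hc : ∀ (p : Fin k × Set (Fin k)) (w : (Fin k × Fin m) ⊕ (Set (Fin k) × Fin n) → P),
      (NTH_c L φ k p).Realize (Sum.elim default w) ↔
        (φ.Realize (Sum.elim (fun x => w (Sum.inl (p.1, x))) (fun y => w (Sum.inr (p.2, y)))) ↔ p.1 ∈ p.2) := by
    intro p w
    have e : (Sum.elim (default : Empty → P) w) ∘ (NTH_g p) =
        Sum.elim (fun x => w (Sum.inl (p.1, x))) (fun y => w (Sum.inr (p.2, y))) := by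
      funext i
      rcases i with i | i <;> rfl
    unfold NTH_c
    split_ifs with hp
    · rw [Formula.realize_relabel, e]
      simp [hp]
    · rw [Formula.realize_not, Formula.realize_relabel, e]
      simp [hp]
  unfold NTH_s Sentence.Realize
  rw [Formula.realize_iExs]
  simp only [Formula.realize_iInf]
  constructor
  · rintro ⟨w, hw⟩
    refine ⟨fun i x => w (Sum.inl (i, x)), fun S y => w (Sum.inr (S, y)), fun i S => ?_⟩
    exact (hc (i, S) w).1 (hw (i, S))
  · rintro ⟨a, b, hab⟩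
    refine ⟨Sum.elim (fun q => a q.1 q.2) (fun q => b q.1 q.2), fun p => ?_⟩
    exact (hc p _).2 (hab p.1 p.2)

theorem NTH : NTH_stmt := by
  intro L M _ _ h m n φ
  obtain ⟨k, hk⟩ := h m n φ
  refine ⟨k, ?_⟩
  intro N _ _ hN hS
  have h1 : M ⊨ ∼(NTH_s L φ k) := by
    rw [Sentence.realize_not, NTH_real]
    exact hk
  have h2 : ∼(NTH_s L φ k) ∈ L.completeTheory M := (mem_completeTheory).2 h1
  have h3 : N ⊨ ∼(NTH_s L φ k) := hN.realize_of_mem _ h2
  rw [Sentence.realize_not, NTH_real] at h3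
  exact h3 hS

end Pool.Agent.UL
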