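import Pool.Agent.helper7.UL.Spec

/-!
# Project ul, row SMA (the cells treated by hand)
-/

set_option autoImplicit false

namespace Pool.Agent.UL

open Finset

lemma SMA_first (R o : ℕ) (h : first R o = true) :
    (∀ j < o, cell R o j 0 = if j % 2 = 0 then 2 ^ R else 2 ^ (R + 4) - 2 ^ R) ∧
    (∀ j < o, cell R o j 1 = if j = 0 then 2 ^ (R + 4) - 2 ^ (R - 1) else if j = 1 then 2 ^ (R - 1) - 1
      else if j % 2 = 0 then 0 else 2 ^ R - 1) ∧
    cell R o 0 2 = 2 ^ (R - 1) - 1 + 2 ^ R := by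
  unfold first at h
  simp only [Bool.and_eq_true, List.all_eq_true, List.mem_range, beq_iff_eq] at h
  exact ⟨h.1.1, h.1.2, h.2⟩

lemma SMA_tb (R n i : ℕ) (hn : n ≤ R + 4) :
    (2 ^ (R + 4) - 2 ^ n).testBit i = (decide (i < R + 4) && !decide (i < n)) := by
  have h1 : 2 ^ n - 1 < 2 ^ (R + 4) := by
    have : 2 ^ n ≤ 2 ^ (R + 4) := Nat.pow_le_pow_right (by norm_num) hn
    have : 0 < 2 ^ n := by positivity
    omega
  have h2 := Nat.testBit_two_pow_sub_succ h1 i
  have h3 : 2 ^ n - 1 + 1 = 2 ^ n := Nat.sub_add_cancel (Nat.one_le_two_pow)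
  rw [h3] at h2
  rw [h2, Nat.testBit_two_pow_sub_one]

lemma SMA_tb2 (R i : ℕ) (hR : 8 ≤ R) :
    (2 ^ (R - 1) - 1 + 2 ^ R).testBit i = (decide (i = R) || decide (i < R - 1)) := by
  have h1 : 2 ^ (R - 1) - 1 < 2 ^ R := by
    have : 2 ^ (R - 1) ≤ 2 ^ R := Nat.pow_le_pow_right (by norm_num) (by omega)
    have : 0 < 2 ^ (R - 1) := by positivity
    omega
  have h2 := Nat.two_pow_add_eq_or_of_lt h1 1
  rw [mul_one] at h2
  rw [add_comm, h2, Nat.testBit_or, Nat.testBit_two_pow_sub_one, Nat.testBit_two_pow]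
  congr 1
  simp [eq_comm]

lemma SMA_wz (R : ℕ) (hR : 8 ≤ R) (B : ℤ) : wv R (2 ^ R) B = decide (B = 0) := by
  unfold wv
  split_ifs with h1 h2
  · rw [Nat.testBit_two_pow, decide_eq_decide]; omega
  · rw [Nat.testBit_two_pow, decide_eq_decide]; omega
  · rw [Nat.testBit_two_pow, decide_eq_decide]; omega

lemma SMA_ws (R n : ℕ) (_ : 8 ≤ R) (h0 : 1 ≤ n) (hn : n ≤ R + 3) (B : ℤ) :
    wv R (2 ^ (R + 4) - 2 ^ n) B = decide ((n : ℤ) - R ≤ B) := by
  unfold wv
  split_ifs with h1 h2
  · rw [SMA_tb R n _ (by omega), ← decide_not, ← Bool.decide_and, decide_eq_decide]; omega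
  · rw [SMA_tb R n _ (by omega), ← decide_not, ← Bool.decide_and, decide_eq_decide]; omega
  · rw [SMA_tb R n _ (by omega), ← decide_not, ← Bool.decide_and, decide_eq_decide]; omega

lemma SMA_wo (R n : ℕ) (_ : 8 ≤ R) (h0 : 1 ≤ n) (hn : n ≤ R + 3) (B : ℤ) :
    wv R (2 ^ n - 1) B = decide (B < (n : ℤ) - R) := by
  unfold wv
  split_ifs with h1 h2
  · rw [Nat.testBit_two_pow_sub_one, decide_eq_decide]; omega
  · rw [Nat.testBit_two_pow_sub_one, decide_eq_decide]; omega
  · rw [Nat.testBit_two_pow_sub_one, decide_eq_decide]; omega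

lemma SMA_w0 (R : ℕ) (B : ℤ) : wv R 0 B = false := by
  unfold wv
  split_ifs <;> simp

lemma SMA_w2 (R : ℕ) (hR : 8 ≤ R) (B : ℤ) :
    wv R (2 ^ (R - 1) - 1 + 2 ^ R) B = decide (B ≤ -2 ∨ B = 0) := by
  unfold wv
  split_ifs with h1 h2
  · rw [SMA_tb2 R _ hR, ← Bool.decide_or, decide_eq_decide]; omega
  · rw [SMA_tb2 R _ hR, ← Bool.decide_or, decide_eq_decide]; omega
  · rw [SMA_tb2 R _ hR, ← Bool.decide_or, decide_eq_decide]; omega

lemma SMA_pos (R o W j : ℕ) (i : ℤ) (h : Sf R o W j i = true) : 0 ≤ i := by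
  unfold Sf at h
  simp only [Bool.and_eq_true, decide_eq_true_eq] at h
  exact h.1

lemma SMA_c0 (h1 : EXT_stmt) (R o W : ℕ) (hT : Tab R o) (hW : 5 * R + 20 ≤ W) (i : ℤ) (h0 : 0 ≤ i)
    (hi : i ≤ 2 * (W : ℤ) - 1) : Sf R o W 0 i = true ↔ i = 0 ∨ ((W : ℤ) - 1 ≤ i ∧ i ≤ 2 * (W : ℤ) - 2) := by
  obtain ⟨f0, f1, f2⟩ := SMA_first R o hT.hfirst
  have hR := hT.hR
  have ho := hT.ho
  rcases lt_or_ge i ((W : ℤ) - R) with c1 | c1
  · have e := h1 R o W hT (by omega) 0 (by omega) 0 i (by omega) c1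
    rw [f0 0 (by omega), if_pos (by norm_num), SMA_wz R hR] at e
    have e2 : ((0 : ℕ) : ℤ) * W + i = i := by simp
    rw [e2] at e
    rw [e, decide_eq_true_eq]
    omega
  · rcases lt_or_ge i (2 * (W : ℤ) - R) with c2 | c2
    · have e := h1 R o W hT (by omega) 0 (by omega) 1 (i - W) (by omega) (by omega)
      rw [f1 0 (by omega), if_pos rfl, SMA_ws R (R - 1) hR (by omega) (by omega)] at e
      have e2 : ((1 : ℕ) : ℤ) * W + (i - W) = i := by push_cast; ring
      rw [e2] at e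
      rw [e, decide_eq_true_eq]
      omega
    · have e := h1 R o W hT (by omega) 0 (by omega) 2 (i - 2 * W) (by omega) (by omega)
      rw [f2, SMA_w2 R hR] at e
      have e2 : ((2 : ℕ) : ℤ) * W + (i - 2 * W) = i := by push_cast; ring
      rw [e2] at e
      rw [e, decide_eq_true_eq]
      omega

lemma SMA_c1 (h1 : EXT_stmt) (R o W : ℕ) (hT : Tab R o) (hW : 5 * R + 20 ≤ W) (i : ℤ) (h0 : 0 ≤ i)
    (hi : i ≤ (W : ℤ)) : Sf R o W 1 i = true ↔ i ≤ (W : ℤ) - 2 := by
  obtain ⟨f0, f1, f2⟩ := SMA_first R o hT.hfirst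
  have hR := hT.hR
  have ho := hT.ho
  rcases lt_or_ge i ((W : ℤ) - R) with c1 | c1
  · have e := h1 R o W hT (by omega) 1 (by omega) 0 i (by omega) c1
    rw [f0 1 (by omega), if_neg (by norm_num), SMA_ws R R hR (by omega) (by omega)] at e
    have e2 : ((0 : ℕ) : ℤ) * W + i = i := by simp
    rw [e2] at e
    rw [e, decide_eq_true_eq]
    omega
  · have e := h1 R o W hT (by omega) 1 (by omega) 1 (i - W) (by omega) (by omega)
    rw [f1 1 (by omega), if_neg (by norm_num), if_pos rfl, SMA_wo R (R - 1) hR (by omega) (by omega)] at e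
    have e2 : ((1 : ℕ) : ℤ) * W + (i - W) = i := by push_cast; ring
    rw [e2] at e
    rw [e, decide_eq_true_eq]
    omega

lemma SMA_ce (h1 : EXT_stmt) (R o W : ℕ) (hT : Tab R o) (hW : 5 * R + 20 ≤ W) (j : ℕ) (hj : j < o)
    (hj2 : 2 ≤ j) (he : j % 2 = 0) (i : ℤ) (h0 : 0 ≤ i)
    (hi : i ≤ (W : ℤ)) : Sf R o W j i = true ↔ i = 0 := by
  obtain ⟨f0, f1, f2⟩ := SMA_first R o hT.hfirst
  have hR := hT.hR
  have ho := hT.ho
  rcases lt_or_ge i ((W : ℤ) - R) with c1 | c1
  · have e := h1 R o W hT (by omega) j hj 0 i (by omega) c1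
    rw [f0 j hj, if_pos he, SMA_wz R hR] at e
    have e2 : ((0 : ℕ) : ℤ) * W + i = i := by simp
    rw [e2] at e
    rw [e, decide_eq_true_eq]
  · have e := h1 R o W hT (by omega) j hj 1 (i - W) (by omega) (by omega)
    rw [f1 j hj, if_neg (by omega), if_neg (by omega), if_pos he, SMA_w0 R] at e
    have e2 : ((1 : ℕ) : ℤ) * W + (i - W) = i := by push_cast; ring
    rw [e2] at e
    rw [e]
    constructor
    · intro h; exact absurd h (by simp)
    · intro h; omega

lemma SMA_co (h1 : EXT_stmt) (R o W : ℕ) (hT : Tab R o) (hW : 5 * R + 20 ≤ W) (j : ℕ) (hj : j < o)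
    (he : j % 2 = 1) : Sf R o W j (W : ℤ) = false := by
  obtain ⟨f0, f1, f2⟩ := SMA_first R o hT.hfirst
  have hR := hT.hR
  have ho := hT.ho
  rcases eq_or_ne j 1 with rfl | hj1
  · have := SMA_c1 h1 R o W hT hW (W : ℤ) (by omega) le_rfl
    by_contra hc
    rw [Bool.not_eq_false] at hc
    have := this.1 hc
    omega
  · have e := h1 R o W hT (by omega) j hj 1 0 (by omega) (by omega)
    rw [f1 j hj, if_neg (by omega), if_neg hj1, if_neg (by omega), SMA_wo R R hR (by omega) (by omega)] at e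
    have e2 : ((1 : ℕ) : ℤ) * W + 0 = W := by push_cast; ring
    rw [e2] at e
    rw [e, decide_eq_false_iff_not]
    omega

theorem SMA (h1 : EXT_stmt) : SMA_stmt := by
  intro R o W hT hW
  have hR := hT.hR
  have ho := hT.ho
  have hodd := hT.hodd
  have c0 := SMA_c0 h1 R o W hT hW
  have c1 := SMA_c1 h1 R o W hT hW
  have ce := SMA_ce h1 R o W hT hW
  have co := SMA_co h1 R o W hT hW
  refine ⟨?_, ?_, ?_, ?_, ?_⟩
  · intro J hJ I hI q hq
    obtain ⟨_, _, s1, s2, _, ε, hε, _, h5⟩ := hq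
    have p1 := SMA_pos _ _ _ _ _ s1
    have p2 := SMA_pos _ _ _ _ _ s2
    have p3 : 0 ≤ (ε : ℤ) * ((W : ℤ) - 1) := mul_nonneg (by omega) (by omega)
    omega
  · intro I h0 hI q hq
    obtain ⟨_, _, s1, s2, hne, ε, hε, h4, h5⟩ := hq
    have p1 := SMA_pos _ _ _ _ _ s1
    have p2 := SMA_pos _ _ _ _ _ s2
    interval_cases ε
    · obtain ⟨⟨j1, i1⟩, ⟨j2, i2⟩⟩ := q
      simp only [zero_mul, add_zero, Nat.add_eq_zero_iff, Nat.cast_zero, sub_zero] at h4 h5 s1 s2 p1 p2 hne
      obtain ⟨rfl, rfl⟩ := h4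
      have q1 := (c0 i1 p1 (by omega)).1 s1
      have q2 := (c0 i2 p2 (by omega)).1 s2
      apply hne
      have : i1 = 0 := by omega
      have : i2 = 0 := by omega
      simp [*]
    · simp only [Nat.cast_one, one_mul] at h5
      omega
  · intro I h0 hI q
    constructor
    · intro hq
      obtain ⟨_, _, s1, s2, hne, ε, hε, h4, h5⟩ := hq
      have p1 := SMA_pos _ _ _ _ _ s1
      have p2 := SMA_pos _ _ _ _ _ s2
      interval_cases ε
      · obtain ⟨⟨j1, i1⟩, ⟨j2, i2⟩⟩ := q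
        simp only [zero_mul, add_zero, Nat.cast_zero, sub_zero] at h4 h5 s1 s2 p1 p2 hne
        have h6 : (j1 = 0 ∧ j2 = 1) ∨ (j1 = 1 ∧ j2 = 0) := by omega
        rcases h6 with ⟨rfl, rfl⟩ | ⟨rfl, rfl⟩
        · have q1 := (c0 i1 p1 (by omega)).1 s1
          left
          have e1 : i1 = 0 := by omega
          have e2 : i2 = I := by omega
          rw [e1, e2]
        · have q2 := (c0 i2 p2 (by omega)).1 s2
          right
          have e1 : i2 = 0 := by omega
          have e2 : i1 = I := by omega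
          rw [e1, e2]
      · simp only [Nat.cast_one, one_mul] at h5
        omega
    · have t0 : Sf R o W 0 0 = true := (c0 0 le_rfl (by omega)).2 (Or.inl rfl)
      have t1 : Sf R o W 1 I = true := (c1 I h0 (by omega)).2 hI
      rintro (rfl | rfl)
      · refine ⟨by show 0 < o; omega, by show 1 < o; omega, t0, t1, ?_, 0, by omega, by simp, ?_⟩
        · intro h
          have := congrArg Prod.fst h
          simp at this
        · simp
      · refine ⟨by show 1 < o; omega, by show 0 < o; omega, t1, t0, ?_, 0, by omega, by simp, ?_⟩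
        · intro h
          have := congrArg Prod.fst h
          simp at this
        · simp
  · intro q
    constructor
    · intro hq
      obtain ⟨hj1, hj2, s1, s2, hne, ε, hε, h4, h5⟩ := hq
      have p1 := SMA_pos _ _ _ _ _ s1
      have p2 := SMA_pos _ _ _ _ _ s2
      interval_cases ε
      · obtain ⟨⟨j1, i1⟩, ⟨j2, i2⟩⟩ := q
        simp only [zero_mul, add_zero, Nat.add_eq_zero_iff, Nat.cast_zero, sub_zero] at h4 h5 s1 s2 p1 p2 hne
        obtain ⟨rfl, rfl⟩ := h4
        have q1 := (c0 i1 p1 (by omega)).1 s1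
        have q2 := (c0 i2 p2 (by omega)).1 s2
        have h6 : (i1 = (W : ℤ) - 1 ∧ i2 = W) ∨ (i1 = (W : ℤ) ∧ i2 = (W : ℤ) - 1) := by omega
        rcases h6 with ⟨e1, e2⟩ | ⟨e1, e2⟩
        · left; rw [e1, e2]
        · right; rw [e1, e2]
      · obtain ⟨⟨j1, i1⟩, ⟨j2, i2⟩⟩ := q
        simp only [Nat.cast_one, one_mul, zero_add] at h4 h5 s1 s2 p1 p2 hj1 hj2
        exfalso
        rcases Nat.mod_two_eq_zero_or_one j1 with m1 | m1
        · have := (ce j1 hj1 (by omega) m1 i1 p1 (by omega)).1 s1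
          have e2 : i2 = (W : ℤ) := by omega
          rw [e2, co j2 hj2 (by omega)] at s2
          exact absurd s2 (by simp)
        · have := (ce j2 hj2 (by omega) (by omega) i2 p2 (by omega)).1 s2
          have e2 : i1 = (W : ℤ) := by omega
          rw [e2, co j1 hj1 m1] at s1
          exact absurd s1 (by simp)
    · have t0 : Sf R o W 0 ((W : ℤ) - 1) = true := (c0 _ (by omega) (by omega)).2 (Or.inr ⟨le_rfl, by omega⟩)
      have t1 : Sf R o W 0 (W : ℤ) = true := (c0 _ (by omega) (by omega)).2 (Or.inr ⟨by omega, by omega⟩)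
      rintro (rfl | rfl)
      · refine ⟨by show 0 < o; omega, by show 0 < o; omega, t0, t1, ?_, 0, by omega, by simp, ?_⟩
        · intro h
          have := congrArg Prod.snd h
          simp at this
        · show (W : ℤ) - 1 + W = 2 * W - 1 - ((0 : ℕ) : ℤ) * (W - 1)
          push_cast; ring
      · refine ⟨by show 0 < o; omega, by show 0 < o; omega, t1, t0, ?_, 0, by omega, by simp, ?_⟩
        · intro h
          have h7 := congrArg Prod.snd h
          simp only at h7
          omega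
        · show (W : ℤ) + (W - 1) = 2 * W - 1 - ((0 : ℕ) : ℤ) * (W - 1)
          push_cast; ring
  · intro I h0 hI
    have t0 : Sf R o W 0 0 = true := (c0 0 le_rfl (by omega)).2 (Or.inl rfl)
    have t2 : Sf R o W 2 0 = true := (ce 2 (by omega) le_rfl rfl 0 le_rfl (by omega)).2 rfl
    have t1 : ∀ i : ℤ, 0 ≤ i → i ≤ 2 → Sf R o W 1 i = true := fun i a b => (c1 i a (by omega)).2 (by omega)
    interval_cases I
    · refine ⟨((0, 0), (2, 0)), by show 0 < o; omega, by show 2 < o; omega, t0, t2, ?_, 0, by omega, by simp, ?_⟩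
      · intro h
        have := congrArg Prod.fst h
        simp at this
      · simp
    · refine ⟨((1, 0), (1, 1)), by show 1 < o; omega, by show 1 < o; omega, t1 0 le_rfl (by norm_num),
        t1 1 (by norm_num) (by norm_num), ?_, 0, by omega, by simp, ?_⟩
      · intro h
        have := congrArg Prod.snd h
        simp at this
      · simp
    · refine ⟨((1, 0), (1, 2)), by show 1 < o; omega, by show 1 < o; omega, t1 0 le_rfl (by norm_num),
        t1 2 (by norm_num) (by norm_num), ?_, 0, by omega, by simp, ?_⟩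
      · intro h
        have := congrArg Prod.snd h
        simp at this
      · simp

end Pool.Agent.UL
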